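import Mathlib
import Pool.Agent.H73.SK.SteinDom
import Pool.Agent.H73.SK.Classify
import Pool.Agent.H73.SK.RigidQ
import Pool.Agent.H73.SK.Koba
import Pool.Agent.H73.SK.Convex

/-!
# Stein manifolds diffeomorphic to complex affine space with vanishing Kobayashi pseudodistance
whose fibres over a line are balls: the complete classification

`D : Data` consists of distinct points `z k`, dense in `ℂ`, and masses `c k > 0` with
`∑ c k (1 + log⁺ |z k|) < ∞`.  The domains `{(x, w) : ∏ |x - z k| ^ c k * ‖w‖ < 1}` in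
`ℂ ^ (m + 1)` are counterexamples to the question for every `m ≥ 1`, and all biholomorphic maps
between any two of them are described.
-/

open Filter Topology Set Metric

namespace Pool.Agent.Results.MP_3bb7cc_an.BallFibres

open H73SK

theorem result (m : ℕ) (hm : 1 ≤ m) :
    ∃ M : Data → Set (ℂ × EuclideanSpace ℂ (Fin m)),
      (∀ D, M D = {p | (∏' k, ‖p.1 - D.z k‖ ^ D.c k) * ‖p.2‖ < 1}) ∧
      (∀ D, IsSteinDomain (M D) ∧ DiffeoToWhole (M D) ∧ KobayashiVanishes (M D) ∧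
        ¬ ∃ F, IsBiholo F (M D) (univ : Set (ℂ × EuclideanSpace ℂ (Fin m)))) ∧
      ∀ D D' F, IsBiholo F (M D) (M D') ↔
        ∃ (α β : ℂ) (U : EuclideanSpace ℂ (Fin m) ≃ₗᵢ[ℂ] EuclideanSpace ℂ (Fin m)), α ≠ 0 ∧
          (∃ π : ℕ ≃ ℕ, ∀ k, D'.z (π k) = α * D.z k + β ∧ D'.c (π k) = D.c k) ∧
          ∀ p ∈ M D, F p = (α * p.1 + β, ((‖α‖ ^ (-∑' k, D.c k) : ℝ) : ℂ) • U p.2) := by
  have hm0 : m ≠ 0 := by omega
  have hnt : Nontrivial (EuclideanSpace ℂ (Fin m)) := nontrivial_Em hm0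
  have hgauge : Gauge (nrm (EuclideanSpace ℂ (Fin m))) := gauge_norm _
  refine ⟨fun D => D.dom (nrm (EuclideanSpace ℂ (Fin m))), fun D => rfl, ?_, ?_⟩
  · intro D
    refine ⟨D.isSteinDomain_nrm, D.diffeo_nrm, D.kobayashiVanishes hgauge, ?_⟩
    rintro ⟨F, hF⟩
    apply D.not_convexExhaustible hgauge
    refine ⟨fun _ => D.dom (nrm _), fun _ => univ, fun _ => F, monotone_const, iUnion_const _,
      fun _ => ⟨D.isOpen_dom hgauge, isOpen_univ, convex_univ, hF⟩⟩
  · intro D D' F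
    exact biholo_iff D D' F

end Pool.Agent.Results.MP_3bb7cc_an.BallFibres
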