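import Mathlib
import Pool.Agent.H73.SK.SteinDom
import Pool.Agent.H73.SK.RigidQ
import Pool.Agent.H73.SK.Family
import Pool.Agent.H73.SK.Koba
import Pool.Agent.H73.SK.Convex

/-!
# Rigid Stein manifolds diffeomorphic to complex affine space with vanishing Kobayashi
pseudodistance

For every `n = m + 1 ≥ 2` an explicit family `M t` of domains in `ℂ ^ n`, indexed by the points
`t` of the cube `[0, 1] ^ ℕ`.  Each `M t` is Stein, diffeomorphic to `ℂ ^ n`, has vanishing
Kobayashi pseudodistance and is not biholomorphic to `ℂ ^ n`; it is not even an increasing union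
of open sets biholomorphic to convex open sets.  The only biholomorphic maps between members of
the family are the identity maps: the members are pairwise not biholomorphic and have trivial
automorphism groups.
-/

open Filter Topology Set Metric

namespace Pool.Agent.Results.MP_3bb7cc_an.RigidFamily

open H73SK

theorem result.{u} (m : ℕ) (hm : 1 ≤ m) :
    ∃ (z : ℕ → ℂ) (c : ℕ → ℝ) (M : (ℕ → ℝ) → Set (ℂ × EuclideanSpace ℂ (Fin m))),
      (∀ t, M t = {p | (∏' k, ‖p.1 - z k‖ ^ (c k * (1 + t k))) *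
        √(∑ i : Fin m, ‖p.2 i‖ ^ 2 * (1 + ‖p.2 i / ((i : ℂ) + 1) - 1‖ ^ 2)) < 1}) ∧
      (∀ t, (∀ k, t k ∈ Icc (0 : ℝ) 1) →
        IsSteinDomain (M t) ∧ DiffeoToWhole (M t) ∧ KobayashiVanishes (M t) ∧
        (¬ ∃ F, IsBiholo F (M t) (univ : Set (ℂ × EuclideanSpace ℂ (Fin m)))) ∧
        ¬ ConvexExhaustible (M t) ∧
        ∀ (W : Type u) [NormedAddCommGroup W] [NormedSpace ℂ W]
          (γ : W → ℂ × EuclideanSpace ℂ (Fin m)), Differentiable ℂ γ → (∀ v, γ v ∈ M t) →
            (∀ v, (γ v).2 = 0) ∨ ∃ x, ∀ v, (γ v).1 = x) ∧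
      ∀ s t, (∀ k, s k ∈ Icc (0 : ℝ) 1) → (∀ k, t k ∈ Icc (0 : ℝ) 1) →
        ∀ F, IsBiholo F (M s) (M t) → s = t ∧ ∀ p ∈ M s, F p = p := by
  obtain ⟨D, hD⟩ := exists_data
  set b : Fin m → ℝ := fun i => (i : ℝ) + 1 with hbdef
  have hb : ∀ i, 0 < b i := fun i => by rw [hbdef]; positivity
  have hbi : Function.Injective b := by
    intro i j h
    rw [hbdef] at h
    simp only [add_left_inj, Nat.cast_inj] at h
    exact Fin.ext h
  have hm0 : m ≠ 0 := by omega
  have hnt : Nontrivial (EuclideanSpace ℂ (Fin m)) := nontrivial_Em hm0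
  have hgauge : Gauge (Vq b) := gauge_Vq
  set M : (ℕ → ℝ) → Set (ℂ × EuclideanSpace ℂ (Fin m)) := fun t =>
    {p | (∏' k, ‖p.1 - D.z k‖ ^ (D.c k * (1 + t k))) *
      √(∑ i : Fin m, ‖p.2 i‖ ^ 2 * (1 + ‖p.2 i / ((i : ℂ) + 1) - 1‖ ^ 2)) < 1} with hM
  have hMdom : ∀ t (ht : ∀ k, t k ∈ Icc (0 : ℝ) 1), M t = (D.vary t ht).dom (Vq b) := by
    intro t ht
    ext p
    have h1 : Vq b p.2 =
        √(∑ i : Fin m, ‖p.2 i‖ ^ 2 * (1 + ‖p.2 i / ((i : ℂ) + 1) - 1‖ ^ 2)) := by
      rw [← Real.sqrt_sq (Vq_nonneg (b := b) p.2), Vq_sq_sum]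
      congr 1
      apply Finset.sum_congr rfl
      intro i _
      rw [hbdef]
      push_cast
      rfl
    rw [Data.mem_dom, hM, mem_ofPred_eq, ← h1]
    rfl
  refine ⟨D.z, D.c, M, fun t => rfl, ?_, ?_⟩
  · intro t ht
    rw [hMdom t ht]
    set Dt := D.vary t ht with hDt
    have hnc : ¬ ConvexExhaustible (Dt.dom (Vq b)) := Dt.not_convexExhaustible hgauge
    refine ⟨Dt.isSteinDomain_Vq hb, Dt.diffeo_Vq hb, Dt.kobayashiVanishes hgauge, ?_, hnc, ?_⟩
    · rintro ⟨F, hF⟩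
      apply hnc
      refine ⟨fun _ => Dt.dom (Vq b), fun _ => univ, fun _ => F, monotone_const, iUnion_const _,
        fun _ => ⟨Dt.isOpen_dom hgauge, isOpen_univ, convex_univ, hF⟩⟩
    · intro W _ _ γ hγ hγM
      exact Dt.entire_map hgauge hγ hγM
  · intro s t hs ht F hF
    rw [hMdom s hs, hMdom t ht] at hF
    rw [hMdom s hs]
    obtain ⟨α, β, -, ⟨π, hπ⟩, hFp⟩ := (biholoq_iff hm0 hb hbi _ _ F).1 hF
    have hid : ∀ k, π k = k :=
      perm_eq_id (Data.vary_strictAnti hD ht) (Data.vary_strictAnti hD hs) fun k => (hπ k).2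
    have hc : ∀ k, D.c k * (1 + t k) = D.c k * (1 + s k) := by
      intro k
      have h1 : D.c (π k) * (1 + t (π k)) = D.c k * (1 + s k) := (hπ k).2
      rwa [hid k] at h1
    have hz : ∀ k, D.z k = α * D.z k + β := by
      intro k
      have h1 : D.z (π k) = α * D.z k + β := (hπ k).1
      rwa [hid k] at h1
    have h01 : D.z 0 ≠ D.z 1 := fun h => zero_ne_one (D.inj h)
    have hα : α = 1 := by
      have h2 : α * (D.z 0 - D.z 1) = D.z 0 - D.z 1 := by
        linear_combination (hz 1) - (hz 0)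
      exact (mul_eq_right₀ (sub_ne_zero.2 h01)).1 h2
    have hβ : β = 0 := by
      have h2 := hz 0
      rw [hα] at h2
      linear_combination -h2
    refine ⟨?_, fun p hp => ?_⟩
    · funext k
      have h2 := mul_left_cancel₀ (D.pos k).ne' (hc k)
      linarith
    · rw [hFp p hp, hα, hβ, one_mul, add_zero]

end Pool.Agent.Results.MP_3bb7cc_an.RigidFamily
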